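import Pool.Agent.Helper93.UX.Defs
import Pool.Agent.Helper56.UG.Cv

/-!
# NR#: the number of the zeros in a window, off a set of measure `L^(-B) T`

From all the moments of `TX1` and Markov's inequality.
-/

set_option autoImplicit false
open MeasureTheory Set Filter Topology
open Pool.Agent.Helper93.UG (zc sp)

namespace Pool.Agent.Helper21.NS

/-- Markov's inequality for a set in an interval -/
theorem markov {f : ℝ → ℝ} {a b ε I : ℝ} (hf0 : ∀ x, 0 ≤ f x) (hf : IntegrableOn f (Icc a b))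
    (hI : ∫ t in Icc a b, f t ≤ I) (hε : 0 < ε) :
    volume ({x | ε ≤ f x} ∩ Icc a b) ≤ ENNReal.ofReal (I / ε) := by
  have h1 := mul_meas_ge_le_integral_of_nonneg (μ := volume.restrict (Icc a b)) (Eventually.of_forall hf0) hf ε
  have h2 : (volume.restrict (Icc a b)) {x | ε ≤ f x} = volume ({x | ε ≤ f x} ∩ Icc a b) :=
    Measure.restrict_apply' measurableSet_Icc
  have h3 : volume ({x | ε ≤ f x} ∩ Icc a b) ≠ ⊤ := by
    refine ne_top_of_le_ne_top ?_ (measure_mono inter_subset_right)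
    rw [Real.volume_Icc]
    exact ENNReal.ofReal_ne_top
  have h4 : ε * (volume ({x | ε ≤ f x} ∩ Icc a b)).toReal ≤ I := by
    have h5 : (volume.restrict (Icc a b)).real {x | ε ≤ f x} = (volume ({x | ε ≤ f x} ∩ Icc a b)).toReal := by
      rw [Measure.real, h2]
    rw [← h5]
    exact h1.trans hI
  rw [← ENNReal.ofReal_toReal h3]
  refine ENNReal.ofReal_le_ofReal ?_
  rw [le_div_iff₀ hε]
  linarith

/-- a power of the logarithm is small -/
private lemma log_small (A : ℝ) {c : ℝ} (hc : 0 < c) : ∃ x₀ : ℝ, ∀ x : ℝ, x₀ ≤ x → x ^ A ≤ c * Real.exp x := by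
  have h := (isLittleO_rpow_exp_atTop A).bound hc
  obtain ⟨x₀, hx₀⟩ := eventually_atTop.1 (h.and (eventually_ge_atTop 0))
  refine ⟨x₀, fun x hx => ?_⟩
  obtain ⟨h1, h2⟩ := hx₀ x hx
  rw [Real.norm_of_nonneg (Real.rpow_nonneg h2 _), Real.norm_of_nonneg (Real.exp_pos _).le] at h1
  exact h1

/-- the number of the zeros in a window of half length `w s`, `w ≤ 2 L^k₁` -/
theorem win_of (h1 : Pool.Agent.Helper93.UX.TX1) {k₁ k₂ B : ℝ} (hk : 0 < k₁) (hk1 : k₁ < 1) (hkk : k₁ < k₂)
    (hB : 0 ≤ B) : ∃ C T₀ : ℝ, 1 ≤ C ∧ ∀ T L w : ℝ, T₀ ≤ T → C ≤ L → L ≤ Real.log T → 0 ≤ w → w ≤ 2 * L ^ k₁ →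
    volume {t : ℝ | t ∈ Icc (T / 2) (3 * T) ∧ L ^ k₂ < (zc (Icc (t - w * sp T) (t + w * sp T)) : ℝ)} ≤
      ENNReal.ofReal (C * L ^ (-B) * T) := by
  -- the number of the moment
  obtain ⟨q, hq⟩ := exists_nat_ge (B / k₂)
  have hk20 : 0 < k₂ := hk.trans hkk
  have hq1 : B ≤ q * k₂ := by
    rwa [div_le_iff₀ hk20] at hq
  obtain ⟨C, d, T₀, hC, hd, h⟩ := h1 q
  obtain ⟨x₁, hx₁⟩ := log_small (k₁ + B) (c := 1 / 16) (by norm_num)
  -- `4 L^k₁ + 1 ≤ 5 L^k₁`, and `20 L^k₁ ≤ L^k₂` for large `L`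
  set L₁ : ℝ := (20:ℝ) ^ (1 / (k₂ - k₁)) with hL₁
  have hL₁1 : 1 ≤ L₁ := Real.one_le_rpow (by norm_num) (by
    have : 0 < k₂ - k₁ := by linarith
    positivity)
  set e₁ : ℝ := (1 - k₁) / 2 with he₁
  have he₁0 : 0 < e₁ := by
    rw [he₁]
    linarith
  have hdr : 0 < d * e₁ := mul_pos hd he₁0
  refine ⟨L₁ + (C * 28 ^ q + 1), max T₀ (Real.exp (max (max 1 x₁) ((5 / (d * e₁)) ^ (1 / e₁)))), ?_, ?_⟩
  · have : 0 ≤ C * 28 ^ q := by positivity
    linarith
  intro T L w hT hL hLT hw0 hw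
  have hC28 : 0 ≤ C * 28 ^ q := by positivity
  have hT0 : T₀ ≤ T := (le_max_left _ _).trans hT
  have hTe : Real.exp (max (max 1 x₁) ((5 / (d * e₁)) ^ (1 / e₁))) ≤ T := (le_max_right _ _).trans hT
  have hTp : 0 < T := (Real.exp_pos _).trans_le hTe
  have hlog : max (max 1 x₁) ((5 / (d * e₁)) ^ (1 / e₁)) ≤ Real.log T := by
    rw [Real.le_log_iff_exp_le hTp]
    exact hTe
  set x : ℝ := Real.log T with hx
  have hx1 : 1 ≤ x := ((le_max_left _ _).trans (le_max_left _ _)).trans hlog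
  have hx2 : x₁ ≤ x := ((le_max_right _ _).trans (le_max_left _ _)).trans hlog
  have hx3 : (5 / (d * e₁)) ^ (1 / e₁) ≤ x := (le_max_right _ _).trans hlog
  have hLL₁ : L₁ ≤ L := by linarith
  have hL1 : (1:ℝ) ≤ L := hL₁1.trans hLL₁
  have hL0 : (0:ℝ) < L := by linarith
  set v : ℝ := L ^ k₁ with hv
  have hv1 : 1 ≤ v := Real.one_le_rpow hL1 hk.le
  have hvx : v ≤ x ^ k₁ := Real.rpow_le_rpow hL0.le hLT hk.le
  have h20 : 20 * v ≤ L ^ k₂ := by
    have e1 : (20:ℝ) ≤ L ^ (k₂ - k₁) := by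
      have e2 : (20:ℝ) = L₁ ^ (k₂ - k₁) := by
        rw [hL₁, ← Real.rpow_mul (by norm_num), one_div, inv_mul_cancel₀ (by linarith), Real.rpow_one]
      rw [e2]
      exact Real.rpow_le_rpow (by linarith) hLL₁ (by linarith)
    have e3 : L ^ k₂ = L ^ (k₂ - k₁) * v := by
      rw [hv, ← Real.rpow_add hL0]
      congr 1
      ring
    rw [e3]
    exact mul_le_mul_of_nonneg_right e1 (by linarith)
  set c : ℝ := 4 * v + 1 with hc
  have hc1 : 1 ≤ c := by linarith
  have hcd : c ≤ d * (Real.log T / Real.log (Real.log T)) := by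
    rw [← hx]
    rcases le_or_gt (Real.log x) 0 with hz | hz
    · exfalso
      have hx4 : x ≤ 1 := by
        by_contra hh
        push Not at hh
        exact absurd (Real.log_pos hh) (not_lt.2 hz)
      have hL2 : (20:ℝ) ^ (0:ℝ) < L₁ := by
        rw [hL₁]
        refine Real.rpow_lt_rpow_of_exponent_lt (by norm_num) ?_
        have : 0 < k₂ - k₁ := by linarith
        positivity
      rw [Real.rpow_zero] at hL2
      linarith
    · rw [mul_div_assoc', le_div_iff₀ hz]
      have g1 : c ≤ 5 * x ^ k₁ := by linarith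
      have g2 : Real.log x ≤ x ^ e₁ / e₁ := Real.log_le_rpow_div (by linarith) he₁0
      have g3 : 5 / (d * e₁) ≤ x ^ e₁ := by
        have e3 : ((5 / (d * e₁)) ^ (1 / e₁)) ^ e₁ = 5 / (d * e₁) := by
          rw [← Real.rpow_mul (by positivity), one_div, inv_mul_cancel₀ he₁0.ne', Real.rpow_one]
        rw [← e3]
        exact Real.rpow_le_rpow (by positivity) hx3 he₁0.le
      have g4 : x ^ k₁ * x ^ e₁ * x ^ e₁ = x := by
        rw [← Real.rpow_add (by linarith), ← Real.rpow_add (by linarith)]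
        have : k₁ + e₁ + e₁ = 1 := by
          rw [he₁]
          ring
        rw [this, Real.rpow_one]
      have g5 : (0:ℝ) < x ^ k₁ := Real.rpow_pos_of_pos (by linarith) _
      have g6 : (0:ℝ) < x ^ e₁ := Real.rpow_pos_of_pos (by linarith) _
      rw [div_le_iff₀ hdr] at g3
      calc c * Real.log x ≤ (5 * x ^ k₁) * (x ^ e₁ / e₁) := mul_le_mul g1 g2 hz.le (by positivity)
        _ = 5 * (x ^ k₁ * x ^ e₁) / e₁ := by ring
        _ ≤ (x ^ e₁ * (d * e₁)) * (x ^ k₁ * x ^ e₁) / e₁ := by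
            refine div_le_div_of_nonneg_right ?_ he₁0.le
            exact mul_le_mul_of_nonneg_right g3 (by positivity)
        _ = d * (x ^ k₁ * x ^ e₁ * x ^ e₁) := by
            field_simp
        _ = d * x := by rw [g4]
  obtain ⟨hint, hmom⟩ := h T hT0 c hc1 hcd
  have hlc0 : 0 ≤ Real.log (2 + c) := Real.log_nonneg (by linarith)
  have hlc : Real.log (2 + c) ≤ 7 * v := by
    have e := Real.log_le_sub_one_of_pos (x := 2 + c) (by linarith)
    linarith
  -- the spacing
  have hspx : sp T = 2 * Real.pi / x := rfl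
  have hsp0 : 0 < sp T := by
    rw [hspx]
    have := Real.pi_pos
    positivity
  have hsp8 : sp T ≤ 8 := by
    rw [hspx, div_le_iff₀ (by linarith)]
    have := Real.pi_le_four
    nlinarith
  set H : ℝ := w * sp T with hH
  have hH0 : 0 ≤ H := by positivity
  have hHle : H ≤ L ^ (-B) * T := by
    have e1 : H ≤ 16 * v := by
      calc H = w * sp T := rfl
        _ ≤ (2 * v) * 8 := mul_le_mul hw hsp8 hsp0.le (by linarith)
        _ = 16 * v := by ring
    have e2 : v * L ^ B ≤ 1 / 16 * T := by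
      have e3 : v * L ^ B = L ^ (k₁ + B) := by
        rw [hv, ← Real.rpow_add hL0]
      have e4 : L ^ (k₁ + B) ≤ x ^ (k₁ + B) := Real.rpow_le_rpow hL0.le hLT (by linarith)
      have e5 := hx₁ x hx2
      rw [hx, Real.exp_log hTp] at e5
      rw [e3]
      exact e4.trans e5
    have e6 : 0 < L ^ B := Real.rpow_pos_of_pos hL0 _
    rw [Real.rpow_neg hL0.le, inv_mul_eq_div, le_div_iff₀ e6]
    have e7 : H * L ^ B ≤ 16 * v * L ^ B := mul_le_mul_of_nonneg_right e1 e6.le
    linarith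
  -- the two parts
  set M : ℝ := L ^ k₂ with hM
  have hM0 : 0 < M := Real.rpow_pos_of_pos hL0 _
  set f : ℝ → ℝ := fun t => |(zc (Ico t (t + c * sp T)) : ℝ) - c| ^ (2 * q) with hf
  have hsub : {t : ℝ | t ∈ Icc (T / 2) (3 * T) ∧ M < (zc (Icc (t - w * sp T) (t + w * sp T)) : ℝ)} ⊆
      Icc (T / 2) (T / 2 + H) ∪ (fun t => t + (-H)) ⁻¹' ({u | (M / 2) ^ (2 * q) ≤ f u} ∩ Icc (T / 2) (3 * T)) := by
    intro t ht
    obtain ⟨ht1, ht2⟩ := ht
    rcases le_total t (T / 2 + H) with h3 | h3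
    · exact Or.inl ⟨ht1.1, h3⟩
    · refine Or.inr ⟨?_, ?_⟩
      · show (M / 2) ^ (2 * q) ≤ f (t + -H)
        have e1 : Icc (t - w * sp T) (t + w * sp T) ⊆ Ico (t + -H) (t + -H + c * sp T) := by
          intro y hy
          refine ⟨by linarith [hy.1], lt_of_le_of_lt hy.2 ?_⟩
          have e0 : 2 * w < c := by linarith
          have e00 : 2 * w * sp T < c * sp T := mul_lt_mul_of_pos_right e0 hsp0
          linarith
        have e2 : zc (Icc (t - w * sp T) (t + w * sp T)) ≤ zc (Ico (t + -H) (t + -H + c * sp T)) :=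
          Pool.Agent.Helper56.UG.zc_mono e1 Ico_subset_Icc_self
        have e3 : (zc (Icc (t - w * sp T) (t + w * sp T)) : ℝ) ≤ (zc (Ico (t + -H) (t + -H + c * sp T)) : ℝ) := by
          exact_mod_cast e2
        have e4 : M / 2 ≤ (zc (Ico (t + -H) (t + -H + c * sp T)) : ℝ) - c := by linarith
        exact pow_le_pow_left₀ (by positivity) (e4.trans (le_abs_self _)) _
      · exact ⟨by show T / 2 ≤ t + -H; linarith, by show t + -H ≤ 3 * T; linarith [ht1.2]⟩
  have hm := markov (f := f) (fun u => by positivity) hint hmom (ε := (M / 2) ^ (2 * q)) (by positivity)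
  calc volume {t : ℝ | t ∈ Icc (T / 2) (3 * T) ∧ M < (zc (Icc (t - w * sp T) (t + w * sp T)) : ℝ)}
      ≤ volume (Icc (T / 2) (T / 2 + H)) +
        volume ((fun t => t + (-H)) ⁻¹' ({u | (M / 2) ^ (2 * q) ≤ f u} ∩ Icc (T / 2) (3 * T))) :=
        (measure_mono hsub).trans (measure_union_le _ _)
    _ ≤ ENNReal.ofReal H + ENNReal.ofReal (C * Real.log (2 + c) ^ q * T / (M / 2) ^ (2 * q)) := by
        refine add_le_add ?_ ?_
        · rw [Real.volume_Icc]
          exact ENNReal.ofReal_le_ofReal (by linarith)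
        · rw [measure_preimage_add_right]
          exact hm
    _ = ENNReal.ofReal (H + C * Real.log (2 + c) ^ q * T / (M / 2) ^ (2 * q)) := by
        rw [ENNReal.ofReal_add hH0]
        positivity
    _ ≤ _ := by
        refine ENNReal.ofReal_le_ofReal ?_
        have e1 : C * Real.log (2 + c) ^ q * T / (M / 2) ^ (2 * q) ≤ C * 28 ^ q * (L ^ (-B) * T) := by
          rw [div_le_iff₀ (by positivity)]
          have e2 : Real.log (2 + c) ^ q ≤ (7 * M) ^ q := by
            refine pow_le_pow_left₀ hlc0 (hlc.trans ?_) _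
            linarith
          have e3 : (7 * M) ^ q = 28 ^ q * ((M / 2) ^ (2 * q) * (M ^ q)⁻¹) := by
            have e4 : (M / 2) ^ (2 * q) = M ^ q * M ^ q / 4 ^ q := by
              rw [pow_mul, div_pow, div_pow, ← mul_pow]
              congr 1
              · ring
              · norm_num
            have e5 : (28:ℝ) ^ q = 7 ^ q * 4 ^ q := by
              rw [← mul_pow]
              norm_num
            rw [e4, e5, mul_pow]
            field_simp
          have e6 : (M ^ q)⁻¹ ≤ L ^ (-B) := by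
            rw [Real.rpow_neg hL0.le]
            refine inv_anti₀ (Real.rpow_pos_of_pos hL0 _) ?_
            have e7 : M ^ q = L ^ ((q:ℝ) * k₂) := by
              rw [hM, ← Real.rpow_natCast, ← Real.rpow_mul hL0.le, mul_comm]
            rw [e7]
            exact Real.rpow_le_rpow_of_exponent_le hL1 hq1
          have e8 : 0 ≤ (M / 2) ^ (2 * q) := by positivity
          calc C * Real.log (2 + c) ^ q * T ≤ C * (28 ^ q * ((M / 2) ^ (2 * q) * L ^ (-B))) * T := by
                refine mul_le_mul_of_nonneg_right ?_ hTp.le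
                refine mul_le_mul_of_nonneg_left ?_ hC.le
                refine e2.trans ?_
                rw [e3]
                refine mul_le_mul_of_nonneg_left ?_ (by positivity)
                exact mul_le_mul_of_nonneg_left e6 e8
            _ = C * 28 ^ q * (L ^ (-B) * T) * (M / 2) ^ (2 * q) := by ring
        have e9 : 0 ≤ L ^ (-B) * T := mul_nonneg (Real.rpow_nonneg hL0.le _) hTp.le
        calc H + C * Real.log (2 + c) ^ q * T / (M / 2) ^ (2 * q) ≤ L ^ (-B) * T + C * 28 ^ q * (L ^ (-B) * T) :=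
              add_le_add hHle e1
          _ = (C * 28 ^ q + 1) * (L ^ (-B) * T) := by ring
          _ ≤ (L₁ + (C * 28 ^ q + 1)) * (L ^ (-B) * T) := mul_le_mul_of_nonneg_right (by linarith) e9
          _ = (L₁ + (C * 28 ^ q + 1)) * L ^ (-B) * T := by ring

end Pool.Agent.Helper21.NS
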