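import Pool.Agent.Helper21.NS.Win
import Pool.Agent.Helper57.NS.Defs

/-!
# NR#, block W: the number of the zeros in the window
-/

set_option autoImplicit false
open MeasureTheory Set Filter Topology
open Pool.Agent.Helper93.UG (zc sp)
open Pool.Agent.Helper57.NS

namespace Pool.Agent.Helper21.NS

/-- W: the window -/
theorem win_count_of (h1 : Pool.Agent.Helper93.UX.TX1) {k : ℝ} (hk : 0 < k) (hk8 : k ≤ 1 / 8) : ∃ C T₀ : ℝ, 1 ≤ C ∧
    ∀ T L : ℝ, T₀ ≤ T → C ≤ L → L ≤ Real.log T →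
    volume {t : ℝ | t ∈ Icc (T / 2) (3 * T) ∧ L ^ (k / 4) < (zc (Wk k T L 2 t) : ℝ)} ≤
      ENNReal.ofReal (C * L ^ (-4 : ℝ) * T) := by
  obtain ⟨C, T₀, hC, h⟩ := win_of h1 (k₁ := k / 8) (k₂ := k / 4) (B := 4) (by linarith) (by linarith) (by linarith)
    (by norm_num)
  refine ⟨C, T₀, hC, fun T L hT hL hLT => ?_⟩
  have hL0 : 0 ≤ L ^ (k / 8) := Real.rpow_nonneg (by linarith) _
  exact h T L (2 * L ^ (k / 8)) hT hL hLT (by linarith) le_rfl

end Pool.Agent.Helper21.NS
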